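import Mathlib
import Pool.Agent.Lib.MP_147bb8_ntQ.PartA
import Pool.Agent.Lib.MP_147bb8_ntQ.PartB

/-!
# The two supercongruences (question Q1)
-/

set_option autoImplicit false

namespace Pool.Agent.Results.MP_147bb8_nt.Q1Supercongruences

open Finset Nat
open Pool.Agent.Lib.MP_147bb8_ntQ (eulerNumber)

/-- `x ≡ y (mod p ^ m)` for rational numbers: `x - y = p ^ m z` for a rational number `z` whose
denominator is prime to `p`. -/
def CongrMod (p m : ℕ) (x y : ℚ) : Prop :=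
  ∃ z : ℚ, Nat.Coprime z.den p ∧ x - y = (p : ℚ) ^ m * z

/-- The coefficients `a_k = (28 k² + 18 k + 3) C(2k,k)⁴ C(3k,k)`. -/
def a (k : ℕ) : ℚ :=
  (28 * (k : ℚ) ^ 2 + 18 * k + 3) * (Nat.choose (2 * k) k : ℚ) ^ 4 * (Nat.choose (3 * k) k : ℚ)

lemma a_eq (k : ℕ) : a k / (-64) ^ k = Pool.Agent.Lib.MP_147bb8_nt.F k 0 := by
  rw [Pool.Agent.Lib.MP_147bb8_ntQ.F_CC]
  unfold a Pool.Agent.Lib.MP_147bb8_ntQ.CC
  rw [Nat.cast_choose ℚ (show k ≤ 2 * k by omega), Nat.cast_choose ℚ (show k ≤ 3 * k by omega),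
    show 2 * k - k = k by omega, show 3 * k - k = 2 * k by omega]
  have h1 := Pool.Agent.Lib.MP_147bb8_nt.fac_ne k
  have h2 := Pool.Agent.Lib.MP_147bb8_nt.fac_ne (2 * k)
  have e : (-64 : ℚ) ^ k = (-1) ^ k * 64 ^ k := by rw [← mul_pow]; norm_num
  have h3 : (64 : ℚ) ^ k ≠ 0 := by positivity
  have h4 : ((-1 : ℚ)) ^ k * (-1) ^ k = 1 := by rw [← mul_pow]; norm_num
  have h5 : ((-1 : ℚ)) ^ k ≠ 0 := pow_ne_zero _ (by norm_num)
  rw [e]
  generalize ((-1 : ℚ)) ^ k = s at h4 h5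
  field_simp
  linear_combination (-1 : ℚ) * h4

lemma coprime_of_D {p : ℕ} [hp : Fact p.Prime] {z : ℚ}
    (hz : Pool.Agent.Lib.MP_4af00a_nt.D p 0 z) : Nat.Coprime z.den p := by
  rw [Nat.coprime_comm, hp.out.coprime_iff_not_dvd]
  intro hd
  have h1 : ¬ (p : ℤ) ∣ z.num := by
    intro h
    have h2 : p ∣ z.num.natAbs := Int.natCast_dvd.mp h
    have h3 := Nat.dvd_gcd h2 hd
    rw [z.reduced] at h3
    exact hp.out.one_lt.ne' (Nat.dvd_one.mp h3)
  have h2 : padicNorm p (z.num : ℚ) = 1 := (padicNorm.int_eq_one_iff z.num).mpr h1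
  have h3 : padicNorm p (z.den : ℚ) < 1 := (padicNorm.nat_lt_one_iff z.den).mpr hd
  have h4 : (z.den : ℚ) ≠ 0 := by exact_mod_cast z.den_nz
  have h5 : padicNorm p z * padicNorm p (z.den : ℚ) = padicNorm p (z.num : ℚ) := by
    rw [← padicNorm.mul, Rat.mul_den_eq_num]
  have h6 := hz.le
  simp only [Nat.cast_zero, neg_zero, zpow_zero] at h6
  have h7 := padicNorm.nonneg (p := p) (z.den : ℚ)
  rw [h2] at h5
  nlinarith

lemma congr_of_D {p : ℕ} [hp : Fact p.Prime] {m : ℕ} {x y : ℚ}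
    (h : Pool.Agent.Lib.MP_4af00a_nt.D p m (x - y)) : CongrMod p m x y := by
  have hp0 : (p : ℚ) ≠ 0 := Pool.Agent.Lib.MP_4af00a_nt.p_pos.ne'
  refine ⟨(x - y) / (p : ℚ) ^ m, coprime_of_D (p := p) ?_, ?_⟩
  · induction m generalizing x y with
    | zero => simpa using h
    | succ m ih =>
      have h1 : Pool.Agent.Lib.MP_4af00a_nt.D p m ((x / p) - (y / p)) := by
        apply Pool.Agent.Lib.MP_4af00a_nt.D_of_mul_p
        have e : (p : ℚ) * (x / p - y / p) = x - y := by field_simp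
        rw [e]; exact h
      have h2 := ih h1
      have e : (x / p - y / p) / (p : ℚ) ^ m = (x - y) / (p : ℚ) ^ (m + 1) := by
        rw [pow_succ]; field_simp
      rwa [e] at h2
  · field_simp

lemma euler_zero : eulerNumber 0 = 1 := by
  have h := Pool.Agent.Lib.MP_147bb8_ntQ.eulerP_add 0 0
  unfold Pool.Agent.Lib.MP_147bb8_ntQ.eulerP at h
  simp only [zero_add, range_one, sum_singleton, Nat.choose_self, Nat.cast_one, one_mul,
    Nat.sub_self, pow_zero, mul_one] at h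
  linarith

/-- Q1: both congruences hold for every odd prime `p`. -/
theorem result (p : ℕ) [hp : Fact p.Prime] (hp2 : p ≠ 2) :
    CongrMod p 6 (∑ k ∈ range p, a k / (-64) ^ k)
      (3 * (p : ℚ) ^ 2 - 7 / 2 * (p : ℚ) ^ 5 * bernoulli (p - 3)) ∧
    CongrMod p 5 (∑ k ∈ range ((p - 1) / 2 + 1), a k / (-64) ^ k)
      (3 * (p : ℚ) ^ 2 + 6 * (legendreSym p (-1) : ℚ) * (p : ℚ) ^ 4 * eulerNumber (p - 3)) := by
  obtain ⟨h, hh⟩ : ∃ h, p = 2 * h + 1 := by
    rcases hp.out.eq_two_or_odd' with h2 | h2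
    · exact absurd h2 hp2
    · exact h2
  have hL : legendreSym p (-1) = (-1) ^ h := by
    rw [legendreSym.at_neg_one hp2, ZMod.χ₄_eq_neg_one_pow (by omega), show p / 2 = h by omega]
  have hh2 : (p - 1) / 2 = h := by omega
  rw [hh2, hL]
  by_cases h3 : 3 < p
  · refine ⟨?_, ?_⟩
    · have h4 := Pool.Agent.Lib.MP_147bb8_ntQ.partA hh h3
      simp only [a_eq]
      exact congr_of_D h4
    · have h4 := Pool.Agent.Lib.MP_147bb8_ntQ.partB hh h3
      simp only [a_eq]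
      push_cast
      exact congr_of_D h4
  · have hp3 : p = 3 := by
      have := hp.out.two_le
      omega
    subst hp3
    have hh1 : h = 1 := by omega
    subst hh1
    refine ⟨⟨529 / 256, ?_, ?_⟩, ⟨7 / 4, ?_, ?_⟩⟩
    · norm_num
    · simp only [sum_range_succ, range_zero, sum_empty, a]
      norm_num [Nat.choose, bernoulli_zero]
    · norm_num
    · simp only [sum_range_succ, range_zero, sum_empty, a]
      norm_num [Nat.choose, euler_zero]

end Pool.Agent.Results.MP_147bb8_nt.Q1Supercongruences
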