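import Mathlib
import Pool.Agent.Lib.MP_147bb8_nt.WZ
import Pool.Agent.Lib.MP_147bb8_nt.Val

/-!
# Divisibility of the partial sums (question Q2)
-/

open Finset Nat

namespace Pool.Agent.Results.MP_147bb8_nt.Q2Divisibility

open Pool.Agent.Lib.MP_147bb8_nt

lemma sum_F (n : ℕ) : ∑ k ∈ range n, F k 0 = - ∑ k ∈ range n, G n k := by
  induction n with
  | zero => simp
  | succ n ih =>
    rw [Finset.sum_range_succ, ih]
    have h : ∑ k ∈ range (n + 1), (F n (k + 1) - F n k) =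
        ∑ k ∈ range (n + 1), (G (n + 1) k - G n k) := by
      apply Finset.sum_congr rfl
      intro k hk
      rw [Finset.mem_range] at hk
      exact wz n k (by omega)
    rw [Finset.sum_range_sub, Finset.sum_sub_distrib, Finset.sum_range_succ (fun k => G n k)] at h
    have h1 : F n (n + 1) = 0 := by
      unfold F
      rw [if_neg (by omega)]
    have h2 : G n n = 0 := by
      unfold G
      rw [if_pos le_rfl]
      simp
    rw [h1, h2] at h
    linarith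

lemma F_zero (k : ℕ) : F k 0 = (28 * (k : ℚ) ^ 2 + 18 * k + 3) * (Nat.choose (2 * k) k : ℚ) ^ 4 *
    (Nat.choose (3 * k) k : ℚ) * ((-1) ^ k / 64 ^ k) := by
  unfold F B
  rw [if_pos (Nat.zero_le _), Nat.cast_choose ℚ (show k ≤ 2 * k by omega),
    Nat.cast_choose ℚ (show k ≤ 3 * k by omega)]
  have e1 : 2 * k - k = k := by omega
  have e2 : 3 * k - k = 2 * k := by omega
  rw [e1, e2]
  simp only [mul_zero, add_zero, Nat.sub_zero, Nat.factorial_zero, Nat.cast_one, mul_one,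
    Nat.cast_zero]
  have h1 := fac_ne k
  have h2 := fac_ne (2 * k)
  field_simp

lemma G_eq (n k : ℕ) (hk : k < n) : -((-64) ^ (n - 1) * G n k) =
    ((2 * n + 1) * n ^ 2 * (Nat.choose (2 * n) n) ^ 2 : ℚ) *
      ((-1) ^ k * ((num n k : ℚ) / (8 * den n k : ℚ))) := by
  obtain ⟨m, rfl⟩ : ∃ m, n = k + m + 1 := ⟨n - (k + 1), by omega⟩
  unfold G B num den
  have e1 : k + m + 1 - 1 = k + m := by omega
  have e2 : k + m + 1 - k = m + 1 := by omega
  have e3 : m + 1 - 1 = m := by omega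
  rw [if_pos (by omega), Nat.cast_choose ℚ (show k + m + 1 ≤ 2 * (k + m + 1) by omega),
    show 2 * (k + m + 1) - (k + m + 1) = k + m + 1 by omega, e1, e2, e3]
  push_cast
  rw [fac_succ (2 * (k + m + 1)), fac_succ (k + m + 1 + 2 * k), fac_succ (2 * k), fac_succ m,
    fac_succ (k + m)]
  have p1 : ((-1 : ℚ)) ^ (k + m + 1 + k) = - ((-1) ^ (k + m) * (-1) ^ k) := by
    rw [show k + m + 1 + k = (k + m) + k + 1 by ring, pow_succ, pow_add]; ring
  have p2 : (-64 : ℚ) ^ (k + m) = (-1) ^ (k + m) * 64 ^ (k + m) := by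
    rw [← mul_pow]; norm_num
  have p3 : ((-1 : ℚ)) ^ (k + m) * (-1) ^ (k + m) = 1 := by
    rw [← mul_pow]; norm_num
  rw [p1, p2, pow_succ (64 : ℚ) (k + m)]
  have h64 : ((64 : ℚ)) ^ (k + m) ≠ 0 := by positivity
  generalize ((64 : ℚ)) ^ (k + m) = w at h64
  generalize ((-1 : ℚ)) ^ (k + m) = s at p3
  generalize ((-1 : ℚ)) ^ k = s'
  have h1 := fac_ne (k + m)
  have h2 := fac_ne (k + m + 1 + k)
  have h3 := fac_ne m
  have h4 := fac_ne (k + m + 1 + 2 * k)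
  have h5 := fac_ne (2 * k)
  have h6 := fac_ne (2 * (k + m + 1))
  have h7 := fac_ne (3 * (k + m + 1))
  have h8 := fac_ne (2 * (k + m + 1) + 2 * k)
  have h9 := fac_ne k
  have g1 : ((k : ℚ) + m + 1) ≠ 0 := by positivity
  have g2 : ((m : ℚ) + 1) ≠ 0 := by positivity
  have g3 : (2 * (k : ℚ) + 1) ≠ 0 := by positivity
  have g4 : ((k : ℚ) + m + 1 + 2 * k + 1) ≠ 0 := by positivity
  have g5 : (2 * ((k : ℚ) + m + 1) + 1) ≠ 0 := by positivity
  push_cast
  generalize ((k + m)! : ℚ) = A at *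
  generalize ((k + m + 1 + k)! : ℚ) = A2 at *
  generalize ((m)! : ℚ) = A3 at *
  generalize ((k + m + 1 + 2 * k)! : ℚ) = A4 at *
  generalize ((2 * k)! : ℚ) = A5 at *
  generalize ((2 * (k + m + 1))! : ℚ) = A6 at *
  generalize ((3 * (k + m + 1))! : ℚ) = A7 at *
  generalize ((2 * (k + m + 1) + 2 * k)! : ℚ) = A8 at *
  generalize ((k)! : ℚ) = A9 at *
  field_simp
  rw [sq, p3]
  ring

/-- Q2: for every `n > 1`, the integer `∑_{k<n} a_k (-64)^(n-1-k)` with
`a_k = (28k²+18k+3) C(2k,k)⁴ C(3k,k)` is divisible by `(2n+1) n² C(2n,n)²`. -/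
theorem result (n : ℕ) (hn : 1 < n) :
    ((2 * (n : ℤ) + 1) * (n : ℤ) ^ 2 * (Nat.choose (2 * n) n : ℤ) ^ 2) ∣
      ∑ k ∈ Finset.range n,
        (28 * (k : ℤ) ^ 2 + 18 * (k : ℤ) + 3) * (Nat.choose (2 * k) k : ℤ) ^ 4 *
          (Nat.choose (3 * k) k : ℤ) * (-64) ^ (n - 1 - k) := by
  have hW : ∀ k ∈ range n, ∃ c : ℤ, ((num n k : ℚ) / (8 * den n k : ℚ)) = c := by
    intro k hk
    rw [Finset.mem_range] at hk
    obtain ⟨c, hc⟩ := eight_den_dvd_num n k (by omega) hk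
    refine ⟨c, ?_⟩
    rw [hc]
    have := den_ne n k
    push_cast
    field_simp
  choose! c hc using hW
  refine ⟨∑ k ∈ range n, (-1) ^ k * c k, ?_⟩
  have key : ((∑ k ∈ Finset.range n,
        (28 * (k : ℤ) ^ 2 + 18 * (k : ℤ) + 3) * (Nat.choose (2 * k) k : ℤ) ^ 4 *
          (Nat.choose (3 * k) k : ℤ) * (-64) ^ (n - 1 - k) : ℤ) : ℚ) =
      (-64) ^ (n - 1) * ∑ k ∈ range n, F k 0 := by
    rw [Finset.mul_sum]
    push_cast
    apply Finset.sum_congr rfl
    intro k hk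
    rw [Finset.mem_range] at hk
    rw [F_zero]
    obtain ⟨j, hj⟩ : ∃ j, n - 1 = k + j := ⟨n - 1 - k, by omega⟩
    have e : n - 1 - k = j := by omega
    rw [e, hj, pow_add]
    have : (-64 : ℚ) ^ k * ((-1) ^ k / 64 ^ k) = 1 := by
      rw [← div_pow, ← mul_pow]; norm_num
    linear_combination (-(28 * (k : ℚ) ^ 2 + 18 * k + 3) * (Nat.choose (2 * k) k : ℚ) ^ 4 *
      (Nat.choose (3 * k) k : ℚ) * (-64) ^ j) * this
  have : ((∑ k ∈ Finset.range n,
        (28 * (k : ℤ) ^ 2 + 18 * (k : ℤ) + 3) * (Nat.choose (2 * k) k : ℤ) ^ 4 *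
          (Nat.choose (3 * k) k : ℤ) * (-64) ^ (n - 1 - k) : ℤ) : ℚ) =
      (((2 * (n : ℤ) + 1) * (n : ℤ) ^ 2 * (Nat.choose (2 * n) n : ℤ) ^ 2 *
        ∑ k ∈ range n, (-1) ^ k * c k : ℤ) : ℚ) := by
    rw [key, sum_F, mul_neg, Finset.mul_sum, ← Finset.sum_neg_distrib, Finset.mul_sum]
    push_cast
    apply Finset.sum_congr rfl
    intro k hk
    rw [G_eq n k (Finset.mem_range.1 hk), hc k hk]
  exact_mod_cast this

end Pool.Agent.Results.MP_147bb8_nt.Q2Divisibility
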